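import Mathlib

set_option autoImplicit false
open Finset Filter

namespace Pool.Agent.Results.MP_721462_co.Levels

variable {n r : ℕ}

/-- `D` assigns to each edge a bijection onto the positions. -/
def IsOri (H : Finset (Finset (Fin n))) (D : Finset (Fin n) → Fin n → Fin r) : Prop :=
  ∀ E ∈ H, Set.BijOn (D E) E Set.univ

/-- The number of edges containing `A` in which `A` occupies exactly the positions `P`. -/
def d (H : Finset (Finset (Fin n))) (D : Finset (Fin n) → Fin n → Fin r) (P : Finset (Fin r))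
    (A : Finset (Fin n)) : ℕ := #(H.filter fun E => A ⊆ E ∧ A.image (D E) = P)

/-- The number of `p`-sets whose degree vector has all entries at least `k`. -/
def fD (H : Finset (Finset (Fin n))) (D : Finset (Fin n) → Fin n → Fin r) (p k : ℕ) : ℕ :=
  #((univ.powersetCard p).filter fun A => ∀ P ∈ univ.powersetCard p, k ≤ d H D P A)

/-- The minimum of `fD` over all orientations. -/
noncomputable def f (r : ℕ) (H : Finset (Finset (Fin n))) (p k : ℕ) : ℕ :=
  sInf {m | ∃ D : Finset (Fin n) → Fin n → Fin r, IsOri H D ∧ fD H D p k = m}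

/-- The largest family of `p`-sets with a colouring leaving no edge `p`-monochromatic. -/
noncomputable def b (r : ℕ) (H : Finset (Finset (Fin n))) (p : ℕ) : ℕ :=
  sSup {m | ∃ B : Finset (Finset (Fin n)), B ⊆ univ.powersetCard p ∧ #B = m ∧
    ∃ c : Finset (Fin n) → Fin (r.choose p),
      ∀ E ∈ H, E.powersetCard p ⊆ B → ¬ ∃ x, ∀ A ∈ E.powersetCard p, c A = x}

noncomputable def U : ℕ → Ultrafilter (List ℕ)
  | 0 => pure []
  | k + 1 => (hyperfilter ℕ).bind fun x => (U k).map (x :: ·)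

theorem U_succ (k : ℕ) (P : List ℕ → Prop) :
    (∀ᶠ l in U (k + 1), P l) ↔ ∀ᶠ x in hyperfilter ℕ, ∀ᶠ l in U k, P (x :: l) := Iff.rfl

theorem U_add (j k : ℕ) (P : List ℕ → Prop) :
    (∀ᶠ l in U (j + k), P l) ↔ ∀ᶠ s in U j, ∀ᶠ l in U k, P (s ++ l) := by
  induction j generalizing P with
  | zero => rw [zero_add]; rfl
  | succ j ih => rw [Nat.succ_add, U_succ, U_succ]; simp only [ih, List.cons_append]

theorem U_len (k : ℕ) : ∀ᶠ l : List ℕ in U k, l.length = k := by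
  induction k with
  | zero => rfl
  | succ k ih => exact (U_succ _ _).mpr (.of_forall fun x => ih.mono fun l h => by simp [h])

def cp : List ℕ → List ℕ → ℕ
  | x :: l, y :: m => if x = y then cp l m + 1 else 0
  | _, _ => 0

theorem cp_comm : ∀ l m, cp l m = cp m l
  | [], [] => rfl
  | [], _ :: _ => rfl
  | _ :: _, [] => rfl
  | x :: l, y :: m => by simp only [cp, cp_comm l m, eq_comm]

theorem cp_app (w a b : List ℕ) : cp (w ++ a) (w ++ b) = w.length + cp a b := by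
  induction w with
  | nil => simp
  | cons x w ih => simp [cp, ih]; omega

theorem U_cp (k : ℕ) (a : List ℕ) : ∀ᶠ l in U (k + 1), a ≠ l ∧ ∀ s t, a ≠ [] → cp (a ++ s) (l ++ t) = 0 := by
  refine (U_succ _ _).mpr ?_
  have : ∀ᶠ x in hyperfilter ℕ, a.headD 0 ≠ x :=
    Eventually.filter_mono hyperfilter_le_cofinite ((eventually_cofinite_ne _).mono
      fun x h => Ne.symm h)
  refine this.mono fun x h => .of_forall fun l => ⟨by rintro rfl; simp at h, fun s t ha => ?_⟩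
  rcases a with _ | ⟨y, a⟩
  · exact absurd rfl ha
  · exact if_neg h

def ka (X : Finset (Fin 4)) : Fin 3 := if 0 ∈ X ↔ 1 ∈ X then 0 else if 0 ∈ X ↔ 2 ∈ X then 1 else 2

theorem ka_eq : ∀ X Y : Finset (Fin 4), #X = 2 → #Y = 2 → ka X = ka Y → Y = X ∨ Y = Xᶜ := by
  decide +kernel

theorem bad : ∀ X : Finset (Fin 4), #X = 2 → ∀ a a' b b' : Fin 4, a ≠ a' → a ≠ b → a ≠ b' → a' ≠ b →
    a' ≠ b' → b ≠ b' → {a, a'} ≠ X → {b, b'} ≠ X →
    ({a, b} = X ∨ {a, b'} = X ∨ {a', b} = X ∨ {a', b'} = X) ∧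
    ({a, b} = Xᶜ ∨ {a, b'} = Xᶜ ∨ {a', b} = Xᶜ ∨ {a', b'} = Xᶜ) := by
  decide +kernel

theorem ramsey (c : List ℕ → List ℕ → Finset (Fin 4)) (hc : ∀ u v, #(c u v) = 2) :
    ∃ a a' b b' X Y, a ≠ a' ∧ a ≠ b ∧ a ≠ b' ∧ a' ≠ b ∧ a' ≠ b' ∧ b ≠ b' ∧ cp a a' % 6 ≠ cp a b % 6 ∧
      (Y = X ∨ Y = Xᶜ) ∧ c a a' = X ∧ c b b' = X ∧ c a b = Y ∧ c a b' = Y ∧ c a' b = Y ∧ c a' b' = Y := by
  have : ∀ i : Fin 4, ∃ X, ∀ᶠ w in U i, ∀ᶠ a in U (4 - i), ∀ᶠ b in U (4 - i),
      c (w ++ a) (w ++ b) = X := fun i =>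
    Ultrafilter.eventually_exists_iff.mp (.of_forall fun w => Ultrafilter.eventually_exists_iff.mp
      (.of_forall fun a => Ultrafilter.eventually_exists_iff.mp (.of_forall fun b => ⟨_, rfl⟩)))
  choose X hX using this
  have X2 : ∀ i, #(X i) = 2 := fun i => by
    obtain ⟨w, h⟩ := (hX i).exists
    obtain ⟨a, h⟩ := h.exists
    obtain ⟨b, h⟩ := h.exists
    rw [← h, hc]
  obtain ⟨i, j, ij, e⟩ := Fintype.exists_ne_map_eq_of_card_lt (fun i => ka (X i)) (by simp)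
  wlog l : i < j generalizing i j
  · exact this j i ij.symm e.symm (lt_of_le_of_ne (not_lt.mp l) ij.symm)
  have h1 := hX i
  have h2 := hX j
  obtain ⟨s, hs⟩ : ∃ s, j.val = i + (s + 1) := ⟨j - i - 1, by have : i.val < j := l; omega⟩
  obtain ⟨t, ht⟩ : ∃ t, 4 - j.val = t + 1 := ⟨3 - j, by omega⟩
  rw [show 4 - i.val = (s + 1) + (t + 1) by omega] at h1
  rw [ht, hs] at h2
  rw [U_add] at h2
  simp only [U_add (s + 1) (t + 1), List.append_assoc] at h1 h2
  obtain ⟨w, h1, h2, lw⟩ := (h1.and (h2.and (U_len _))).exists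
  obtain ⟨u, h1, h3, lu⟩ := (h1.and (h2.and (U_len _))).exists
  obtain ⟨a, h4, h3, la⟩ := (h1.and (h3.and (U_len _))).exists
  obtain ⟨a', h5, h3, na⟩ := (h1.and (h3.and (U_cp t a))).exists
  obtain ⟨v, h4, h5, h2, nv, lv⟩ := (h4.and (h5.and (h2.and ((U_cp s u).and (U_len _))))).exists
  obtain ⟨b, h6, h7, h2⟩ := (h4.and (h5.and h2)).exists
  obtain ⟨b', h8, h9, h2, nb⟩ := (h4.and (h5.and (h2.and (U_cp t b)))).exists
  have ne : ∀ x y, w ++ (u ++ x) ≠ w ++ (v ++ y) := fun x y h =>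
    nv.1 (List.append_inj (List.append_cancel_left h) (lu.trans lv.symm)).1
  refine ⟨_, _, _, _, X j, X i, by simpa using na.1, ne _ _, ne _ _, ne _ _, ne _ _,
    by simpa using nb.1, ?_, ka_eq _ _ (X2 _) (X2 _) e.symm, h3, h2, h6, h8, h7, h9⟩
  have := na.2 [] [] (by rintro rfl; simp at la)
  simp only [List.append_nil] at this
  rw [cp_app, cp_app, cp_app, this, nv.2 _ _ (by rintro rfl; simp at lu)]
  omega

theorem result : ¬ ∀ r p : ℕ, 2 ≤ r → 2 ≤ p → p ≤ r → ∀ (n : ℕ) (H : Finset (Finset (Fin n))),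
    (∀ E ∈ H, #E = r) → (f r H p 1 : ℤ) = n.choose p - b r H p := by
  classical
  intro h
  let e := Denumerable.eqv (List ℕ)
  let col : ∀ n, Finset (Fin n) → Fin (Nat.choose 4 2) := fun n A =>
    ⟨(A.offDiag.sup fun z => cp (e.symm z.1) (e.symm z.2)) % 6, Nat.mod_lt _ (by norm_num)⟩
  let H : ∀ n, Finset (Finset (Fin n)) := fun n => (univ.powersetCard 4).filter fun E =>
    ¬ ∃ x, ∀ A ∈ E.powersetCard 2, col n A = x
  have H4 : ∀ n, ∀ E ∈ H n, #E = 4 := fun n E hE => (mem_powersetCard.mp (mem_filter.mp hE).1).2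
  have key : ∀ n, ∃ D : Finset (Fin n) → Fin n → Fin 4, IsOri (H n) D ∧ fD (H n) D 2 1 = 0 := by
    intro n
    have h1 := h 4 2 (by norm_num) le_rfl (by norm_num) n (H n) (H4 n)
    have h2 : n.choose 2 ≤ b 4 (H n) 2 := by
      refine le_csSup ⟨n.choose 2, ?_⟩ ⟨_, Subset.rfl, by simp, col n, fun E hE _ => (mem_filter.mp hE).2⟩
      rintro m ⟨B, hB, rfl, -⟩
      simpa using card_le_card hB
    have h3 : f 4 (H n) 2 1 = 0 := by omega
    refine (Nat.sInf_eq_zero.mp h3).resolve_right (Set.Nonempty.ne_empty ?_)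
    have : ∀ E : Finset (Fin n), ∃ g : Fin n → Fin 4, E ∈ H n → Set.BijOn g E Set.univ := by
      intro E
      by_cases hE : E ∈ H n
      · let g := Finset.equivFinOfCardEq (H4 n E hE)
        refine ⟨fun v => if h : v ∈ E then g ⟨v, h⟩ else 0, fun _ => ⟨fun _ _ => trivial,
          fun u hu v hv h => ?_, fun y _ => ⟨g.symm y, (g.symm y).2, by simp⟩⟩⟩
        simp only [dif_pos (mem_coe.mp hu), dif_pos (mem_coe.mp hv)] at h
        exact congrArg Subtype.val (g.injective h)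
      · exact ⟨fun _ => 0, fun a => absurd a hE⟩
    choose D hD using this
    exact ⟨_, D, hD, rfl⟩
  choose D hD hf using key
  have miss : ∀ n u v : ℕ, ∃ P : Finset (Fin 4), #P = 2 ∧ ∀ (hu : u < n) (hv : v < n), u ≠ v →
      ∀ E ∈ H n, ⟨u, hu⟩ ∈ E → ⟨v, hv⟩ ∈ E → {D n E ⟨u, hu⟩, D n E ⟨v, hv⟩} ≠ P := by
    intro n u v
    by_cases c : u < n ∧ v < n ∧ u ≠ v
    · obtain ⟨hu, hv, uv⟩ := c
      have := filter_eq_empty_iff.mp (card_eq_zero.mp (hf n)) (x := {⟨u, hu⟩, ⟨v, hv⟩})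
        (mem_powersetCard.mpr ⟨subset_univ _, card_pair (by simpa using uv)⟩)
      push Not at this
      obtain ⟨P, h1, h2⟩ := this
      refine ⟨P, (mem_powersetCard.mp h1).2, fun _ _ _ E hE a b c => ?_⟩
      exact filter_eq_empty_iff.mp (card_eq_zero.mp (Nat.lt_one_iff.mp h2)) hE
        ⟨by simp [insert_subset_iff, a, b], by simpa using c⟩
    · exact ⟨{0, 1}, rfl, fun a b d => absurd ⟨a, b, d⟩ c⟩
  choose P P2 hP using miss
  have lim : ∀ u v : List ℕ, ∃ X, ∀ᶠ n in hyperfilter ℕ, P n (e u) (e v) = X := fun u v =>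
    Ultrafilter.eventually_exists_iff.mp (.of_forall fun _ => ⟨_, rfl⟩)
  choose c hc using lim
  have c2 : ∀ u v, #(c u v) = 2 := fun u v => by
    obtain ⟨n, h⟩ := (hc u v).exists
    rw [← h, P2]
  obtain ⟨a, a', b, b', X, Y, n1, n2, n3, n4, n5, n6, lv, XY, e1, e2, e3, e4, e5, e6⟩ := ramsey c c2
  have big : ∀ u, ∀ᶠ n in hyperfilter ℕ, e u < n := fun u =>
    hyperfilter_le_cofinite (by rw [Nat.cofinite_eq_atTop]; exact eventually_gt_atTop _)
  obtain ⟨n, l1, l2, l3, l4, p1, p2, p3, p4, p5, p6⟩ := ((big a).and ((big a').and ((big b).and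
    ((big b').and ((hc a a').and ((hc b b').and ((hc a b).and ((hc a b').and ((hc a' b).and
    (hc a' b')))))))))).exists
  have ne : ∀ {u v} (hu : e u < n) (hv : e v < n), u ≠ v → (⟨e u, hu⟩ : Fin n) ≠ ⟨e v, hv⟩ :=
    fun _ _ h => by simpa using h
  have m1 := ne l1 l2 n1; have m2 := ne l1 l3 n2; have m3 := ne l1 l4 n3
  have m4 := ne l2 l3 n4; have m5 := ne l2 l4 n5; have m6 := ne l3 l4 n6
  have cv : ∀ {u v} (hu : e u < n) (hv : e v < n), u ≠ v →
      (col n {⟨e u, hu⟩, ⟨e v, hv⟩}).val = cp u v % 6 := fun {u v} hu hv h => by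
    simp only [col]
    rw [offDiag_insert (by simpa using h)]
    simp [cp_comm v u]
  let E : Finset (Fin n) := {⟨e a, l1⟩, ⟨e a', l2⟩, ⟨e b, l3⟩, ⟨e b', l4⟩}
  have hE : E ∈ H n := by
    refine mem_filter.mpr ⟨mem_powersetCard.mpr ⟨subset_univ _, ?_⟩, fun ⟨x, hx⟩ => lv ?_⟩
    · rw [card_insert_of_notMem (by simp only [mem_insert, mem_singleton]; tauto),
        card_insert_of_notMem (by simp only [mem_insert, mem_singleton]; tauto), card_pair m6]
    · rw [← cv l1 l2 n1, ← cv l1 l3 n2,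
        hx _ (mem_powersetCard.mpr ⟨by simp [E, insert_subset_iff], card_pair m1⟩),
        hx _ (mem_powersetCard.mpr ⟨by simp [E, insert_subset_iff], card_pair m2⟩)]
  have a1 : (⟨e a, l1⟩ : Fin n) ∈ E := by simp [E]
  have a2 : (⟨e a', l2⟩ : Fin n) ∈ E := by simp [E]
  have a3 : (⟨e b, l3⟩ : Fin n) ∈ E := by simp [E]
  have a4 : (⟨e b', l4⟩ : Fin n) ∈ E := by simp [E]
  have I := (hD n E hE).injOn
  have q := fun {u v} (hu : e u < n) (hv : e v < n) (h : u ≠ v) => hP n _ _ hu hv (e.injective.ne h) E hE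
  have := bad X (e1 ▸ c2 _ _) _ _ _ _ (I.ne a1 a2 m1) (I.ne a1 a3 m2) (I.ne a1 a4 m3) (I.ne a2 a3 m4)
    (I.ne a2 a4 m5) (I.ne a3 a4 m6) (e1 ▸ p1 ▸ q l1 l2 n1 a1 a2) (e2 ▸ p2 ▸ q l3 l4 n6 a3 a4)
  have y1 := q l1 l3 n2 a1 a3; have y2 := q l1 l4 n3 a1 a4
  have y3 := q l2 l3 n4 a2 a3; have y4 := q l2 l4 n5 a2 a4
  rw [p3, e3] at y1; rw [p4, e4] at y2; rw [p5, e5] at y3; rw [p6, e6] at y4
  rcases XY with rfl | rfl <;> tauto

end Pool.Agent.Results.MP_721462_co.Levels
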